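import Pool.Agent.Results.MP_4ffbf9_nt.RandomSmallSpread
import Pool.Agent.X174.WinRat

/-!
# `A X + B Y = C Z` in products of small spread has no solution for ALL bases in cubes around thin sequences of points

Let `M ≥ 1` and `0 < ε ≤ 1`. There is `δ > 0` such that for every sequence `v ≥ 1` of exponent of convergence at most `τ`
(for `v_i = (i + 1) ^ a` this is `1 / a`, for `v_i = b ^ i` it is `0`) and every `ρ < 1`, outside a set of `x ∈ ℝ^M` of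
Hausdorff dimension at most `(M - 1/4 + ε + τ) / (1 - ρ)` the following holds for all but finitely many `i`: for ALL
positive integers `b_1, …, b_M` with `|b_j - x_j v_i| ≤ v_i ^ ρ` there is no relation `∑ c_j X_j = 0` with products `X_j`, of
any degrees, of integers of `[b_j, b_j + (log v_i) ^ δ]` and nonzero integers `|c_j| ≤ exp ((log v_i) ^ (1 - ε))` with
`∑ c_j ≠ 0`; in particular, for `M = 3`, there is no solution of `A X + B Y = C Z`, `A + B ≠ C`, in such products.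

The number of exceptions is from the starting result `RandomSmallSpread`.
-/

set_option autoImplicit false

open Filter

namespace Pool.Agent.Results.MP_4ffbf9_nt.BasesInCubes

open RandomSmallSpread (ProductFrom BadBases BadTriples triples_subset)

/-- the exponent of convergence of the sequence `v` is at most `τ` -/
def ExpLe (v : ℕ → ℝ) (τ : ℝ) : Prop := ∀ t : ℝ, τ < t → Summable (fun n : ℕ => (v n) ^ (-t))

lemma bad_mono {M : ℕ} {H H' σ σ' : ℝ} (hH : H ≤ H') (hσ : σ ≤ σ') : BadBases M H σ ⊆ BadBases M H' σ' := by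
  rintro b ⟨c, X, h1, h2, h3, h4⟩
  refine ⟨c, X, fun i => ⟨(h1 i).1, (h1 i).2.trans hH⟩, h2, fun i => ?_, h4⟩
  obtain ⟨s, hs, hp⟩ := h3 i
  exact ⟨s, hs.trans hσ, hp⟩

/-- **Theorem.** Let `M ≥ 1` and `0 < ε ≤ 1`. There is `δ > 0` such that for every sequence `v ≥ 1` of exponent of
convergence at most `τ ≥ 0` and every `ρ < 1` there is a set `E ⊂ ℝ^M` of Hausdorff dimension at most
`(M - 1/4 + ε + τ) / (1 - ρ)` such that for each `x` outside `E`, for all but finitely many `i`, NO positive integers `b_j`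
with `|b_j - x_j v_i| ≤ v_i ^ ρ` are in `BadBases M (exp ((log v_i) ^ (1 - ε))) ((log v_i) ^ δ)`: there is no relation
`∑ c_j X_j = 0` with nonzero integers `|c_j| ≤ exp ((log v_i) ^ (1 - ε))`, `∑ c_j ≠ 0`, and products `X_j`, of any degrees,
of integers of `[b_j, b_j + (log v_i) ^ δ]`. For `M = 3` they are not in `BadTriples`: there is no solution of
`A X + B Y = C Z`, `A + B ≠ C`, with `A, B, C ≤ exp ((log v_i) ^ (1 - ε))` in such products. The sequences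
`v_i = (i + 1) ^ a` and `v_i = b ^ i` have exponent of convergence at most `1 / a` and `0`. -/
theorem result :
    (∀ (M : ℕ), 1 ≤ M → ∀ ε : ℝ, 0 < ε → ε ≤ 1 → ∃ δ : ℝ, 0 < δ ∧
      ∀ (v : ℕ → ℝ) (τ ρ : ℝ), (∀ i, 1 ≤ v i) → 0 ≤ τ → ExpLe v τ → ρ < 1 →
      ∃ E : Set (Fin M → ℝ), dimH E ≤ ENNReal.ofReal (((M : ℝ) - 1 / 4 + ε + τ) / (1 - ρ)) ∧
        ∀ x : Fin M → ℝ, x ∉ E → ∃ i₀ : ℕ, ∀ i : ℕ, i₀ ≤ i →
          ∀ b : Fin M → ℕ, (∀ j, 0 < b j) → (∀ j, |(b j : ℝ) - x j * v i| ≤ (v i) ^ ρ) →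
            b ∉ BadBases M (Real.exp (Real.log (v i) ^ (1 - ε))) (Real.log (v i) ^ δ)) ∧
    (∀ ε : ℝ, 0 < ε → ε ≤ 1 → ∃ δ : ℝ, 0 < δ ∧
      ∀ (v : ℕ → ℝ) (τ ρ : ℝ), (∀ i, 1 ≤ v i) → 0 ≤ τ → ExpLe v τ → ρ < 1 →
      ∃ E : Set (Fin 3 → ℝ), dimH E ≤ ENNReal.ofReal ((3 - 1 / 4 + ε + τ) / (1 - ρ)) ∧
        ∀ x : Fin 3 → ℝ, x ∉ E → ∃ i₀ : ℕ, ∀ i : ℕ, i₀ ≤ i →
          ∀ b : Fin 3 → ℕ, (∀ j, 0 < b j) → (∀ j, |(b j : ℝ) - x j * v i| ≤ (v i) ^ ρ) →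
            b ∉ BadTriples (Real.exp (Real.log (v i) ^ (1 - ε))) (Real.log (v i) ^ δ)) ∧
    (∀ a : ℝ, 0 < a → ExpLe (fun n : ℕ => ((n : ℝ) + 1) ^ a) (1 / a)) ∧
    (∀ b : ℝ, 1 < b → ExpLe (fun n : ℕ => b ^ n) 0) := by
  have main : ∀ (M : ℕ), 1 ≤ M → ∀ ε : ℝ, 0 < ε → ε ≤ 1 → ∃ δ : ℝ, 0 < δ ∧
      ∀ (v : ℕ → ℝ) (τ ρ : ℝ), (∀ i, 1 ≤ v i) → 0 ≤ τ → ExpLe v τ → ρ < 1 →
      ∃ E : Set (Fin M → ℝ), dimH E ≤ ENNReal.ofReal (((M : ℝ) - 1 / 4 + ε + τ) / (1 - ρ)) ∧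
        ∀ x : Fin M → ℝ, x ∉ E → ∃ i₀ : ℕ, ∀ i : ℕ, i₀ ≤ i →
          ∀ b : Fin M → ℕ, (∀ j, 0 < b j) → (∀ j, |(b j : ℝ) - x j * v i| ≤ (v i) ^ ρ) →
            b ∉ BadBases M (Real.exp (Real.log (v i) ^ (1 - ε))) (Real.log (v i) ^ δ) := by
    intro M hM ε hε hε1
    obtain ⟨δ, hδ, N₀, hN₀⟩ := RandomSmallSpread.result.1 M ε hε
    have hM1 : (1 : ℝ) ≤ M := by exact_mod_cast hM
    refine ⟨δ, hδ, fun v τ ρ hv hτ hE hρ => ?_⟩
    have hvp : ∀ i, 0 < v i := fun i => lt_of_lt_of_le one_pos (hv i)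
    have hvt : Tendsto v atTop atTop := Pool.Agent.Y854.GM.tendsto_of_expLe hvp hτ hE
    have hs : 0 ≤ (M : ℝ) - 1 / 4 + ε := by linarith
    obtain ⟨E, hE1, hE2⟩ := Pool.Agent.X174.winFam (κ := Fin M) (Q := Fin M → ℕ)
      (fun b j => (b j : ℝ))
      (fun T => {b : Fin M → ℕ | N₀ ≤ ⌊T⌋₊ ∧ b ∈ {b : Fin M → ℕ | ∀ i, 0 < b i ∧ b i ≤ 0 + ⌊T⌋₊} ∩
        BadBases M (Real.exp (Real.log (⌊T⌋₊ : ℕ) ^ (1 - ε))) (Real.log (⌊T⌋₊ : ℕ) ^ δ)})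
      (s := (M : ℝ) - 1 / 4 + ε) (C := 1) hs
      (fun T hT => by
        have hT1 : 1 ≤ ⌊T⌋₊ := Nat.le_floor (by exact_mod_cast hT)
        have hT2 : (1 : ℝ) ≤ ((⌊T⌋₊ : ℕ) : ℝ) := by exact_mod_cast hT1
        have hfin : {b : Fin M → ℕ | N₀ ≤ ⌊T⌋₊ ∧ b ∈ {b : Fin M → ℕ | ∀ i, 0 < b i ∧ b i ≤ 0 + ⌊T⌋₊} ∩
            BadBases M (Real.exp (Real.log (⌊T⌋₊ : ℕ) ^ (1 - ε))) (Real.log (⌊T⌋₊ : ℕ) ^ δ)}.Finite := by
          apply Set.Finite.subset (Set.Finite.pi' (ι := Fin M) (t := fun _ => Set.Icc 0 (0 + ⌊T⌋₊))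
            (fun _ => Set.finite_Icc _ _))
          rintro b ⟨-, hb, -⟩ j
          exact ⟨(hb j).1.le, (hb j).2⟩
        refine ⟨hfin, ?_⟩
        by_cases hN : N₀ ≤ ⌊T⌋₊
        · have h1 := hN₀ ⌊T⌋₊ hN (fun _ => 0) (fun _ => ⌊T⌋₊) (fun _ => le_rfl)
          have h2 : {b : Fin M → ℕ | N₀ ≤ ⌊T⌋₊ ∧ b ∈ {b : Fin M → ℕ | ∀ i, 0 < b i ∧ b i ≤ 0 + ⌊T⌋₊} ∩
              BadBases M (Real.exp (Real.log (⌊T⌋₊ : ℕ) ^ (1 - ε))) (Real.log (⌊T⌋₊ : ℕ) ^ δ)} =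
              {b : Fin M → ℕ | ∀ i, 0 < b i ∧ b i ≤ 0 + ⌊T⌋₊} ∩
              BadBases M (Real.exp (Real.log (⌊T⌋₊ : ℕ) ^ (1 - ε))) (Real.log (⌊T⌋₊ : ℕ) ^ δ) := by
            ext b
            exact ⟨fun h => h.2, fun h => ⟨hN, h⟩⟩
          rw [h2]
          refine h1.trans ?_
          rw [Finset.prod_const, Finset.card_univ, Fintype.card_fin, one_mul]
          calc ((⌊T⌋₊ : ℕ) : ℝ) ^ (-(1 / 4) + ε) * ((⌊T⌋₊ : ℕ) : ℝ) ^ M
              = ((⌊T⌋₊ : ℕ) : ℝ) ^ ((M : ℝ) - 1 / 4 + ε) := by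
                rw [← Real.rpow_natCast, ← Real.rpow_add (by linarith)]
                congr 1
                ring
            _ ≤ T ^ ((M : ℝ) - 1 / 4 + ε) :=
                Real.rpow_le_rpow (Nat.cast_nonneg _) (Nat.floor_le (by linarith)) hs
        · have h2 : {b : Fin M → ℕ | N₀ ≤ ⌊T⌋₊ ∧ b ∈ {b : Fin M → ℕ | ∀ i, 0 < b i ∧ b i ≤ 0 + ⌊T⌋₊} ∩
              BadBases M (Real.exp (Real.log (⌊T⌋₊ : ℕ) ^ (1 - ε))) (Real.log (⌊T⌋₊ : ℕ) ^ δ)} = ∅ := by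
            ext b
            simp only [Set.mem_empty_iff_false, iff_false]
            exact fun h => hN h.1
          rw [h2, Set.ncard_empty, Nat.cast_zero, one_mul]
          exact Real.rpow_nonneg (by linarith) _)
      hv hτ hE hρ
    refine ⟨E, hE1, fun x hx => ?_⟩
    obtain ⟨R, hR, hRc⟩ := Pool.Agent.X174.le_of_cube x
    obtain ⟨i₁, hi₁⟩ := hE2 x hx (R + 1) (by omega)
    obtain ⟨i₂, hi₂⟩ := (hvt.eventually_ge_atTop ((N₀ : ℝ) + 1)).exists_forall_of_atTop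
    refine ⟨max i₁ i₂, fun i hi b hb0 hb hbad => ?_⟩
    have hR1 : (1 : ℝ) ≤ R := by exact_mod_cast hR
    have hvi := hv i
    have k1 := hi₂ i ((le_max_right _ _).trans hi)
    have h3 := hRc (fun j => (b j : ℝ)) (v i) ρ (hv i) hρ hb
    have hB1 : v i ≤ ((⌊((R + 1 : ℕ) : ℝ) * v i⌋₊ : ℕ) : ℝ) := by
      have := Nat.lt_floor_add_one (((R + 1 : ℕ) : ℝ) * v i)
      push_cast at this ⊢
      nlinarith
    have hlog : Real.log (v i) ≤ Real.log ((⌊((R + 1 : ℕ) : ℝ) * v i⌋₊ : ℕ) : ℝ) := Real.log_le_log (hvp i) hB1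
    have hlog0 : 0 ≤ Real.log (v i) := Real.log_nonneg hvi
    refine hi₁ i ((le_max_left _ _).trans hi) b hb ⟨?_, fun j => ⟨hb0 j, ?_⟩, ?_⟩
    · have : (N₀ : ℝ) ≤ ((⌊((R + 1 : ℕ) : ℝ) * v i⌋₊ : ℕ) : ℝ) := by linarith
      exact_mod_cast this
    · rw [zero_add]
      apply Nat.le_floor
      have h4 := h3 j
      rw [abs_of_nonneg (Nat.cast_nonneg _)] at h4
      push_cast
      nlinarith
    · apply bad_mono _ _ hbad
      · exact Real.exp_le_exp.2 (Real.rpow_le_rpow hlog0 hlog (by linarith))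
      · exact Real.rpow_le_rpow hlog0 hlog hδ.le
  refine ⟨main, fun ε hε hε1 => ?_, fun κ hκ => Pool.Agent.Y854.GM.expLe_pow κ hκ,
    fun b hb => Pool.Agent.Y854.GM.expLe_geom b hb⟩
  obtain ⟨δ, hδ, h⟩ := main 3 (by norm_num) ε hε hε1
  refine ⟨δ, hδ, fun v τ ρ hv hτ hE hρ => ?_⟩
  obtain ⟨E, hE1, hE2⟩ := h v τ ρ hv hτ hE hρ
  refine ⟨E, by exact_mod_cast hE1, fun x hx => ?_⟩
  obtain ⟨i₀, hi₀⟩ := hE2 x hx
  exact ⟨i₀, fun i hi b hb0 hb hbad => hi₀ i hi b hb0 hb (triples_subset _ _ hbad)⟩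

end Pool.Agent.Results.MP_4ffbf9_nt.BasesInCubes
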