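import Pool.Agent.Results.MP_4ffbf9_nt.AllDegreesCount
import Pool.Agent.X134.Win.NearC

/-!
# `A X + B Y = C Z` in products of bounded spread: the ratios do not come near generic real numbers

A positive integer has spread at most `S` if it is a product of positive integers which differ by at most `S`; the number of
factors is called the degree. Let `A`, `B`, `C`, `S`, `Q` be given, `A`, `B`, `C` positive.

1. For every `ε > 0` there is `R` such that for every `η > 0` and all real numbers `x` outside a set of Hausdorff dimension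
at most `ε / η` the following holds for all large `T`: ALL solutions of `A X + B Y = C Z`, `gcd (X, Y) ≤ Q * rad (gcd (X, Y))`,
in products of spread at most `S`, of degrees at least `R` (no upper bound), with all factors at most `T`, satisfy
`|A X / (C Z) - x| > T ^ (-η)`.

2. For all `x` outside a set of dimension zero, independent of `A`, `B`, `C`, `S`, `Q`, this holds for every `η > 0`, with
`R` depending on `A`, `B`, `C`, `S`, `Q`, `x` and `η`.
-/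

set_option autoImplicit false

open Filter Topology
open scoped ENNReal

namespace Pool.Agent.Results.MP_4ffbf9_nt.RatiosNearReals

/-- `X` has a product representation of spread at most `S`, of degree at least `R`, with all factors at most `T` -/
def IsProduct (S R : ℕ) (T : ℝ) (X : ℕ) : Prop :=
  ∃ l : List ℕ, l.prod = X ∧ R ≤ l.length ∧ (∀ a ∈ l, 1 ≤ a ∧ (a : ℝ) ≤ T) ∧
    ∀ a ∈ l, ∀ a' ∈ l, a ≤ a' + S

/-- all solutions of `A X + B Y = C Z` with `gcd (X, Y) ≤ Q * rad (gcd (X, Y))` in products of spread at most `S`, of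
degrees at least `R`, with factors at most `T`, satisfy `|A X / (C Z) - x| > T ^ (-η)` -/
def Far (S Q R A B C : ℕ) (T η x : ℝ) : Prop :=
  ∀ X Y Z : ℕ, A * X + B * Y = C * Z → Nat.gcd X Y ≤ Q * ∏ p ∈ (Nat.gcd X Y).primeFactors, p →
    IsProduct S R T X → IsProduct S R T Y → IsProduct S R T Z →
    T ^ (-η) < |((A : ℝ) * X) / (C * Z) - x|

open Pool.Agent.X134.Win (two one_le_two near_family_eps exists_two rpow_le_two' zero_of_eps le_of_two_le)

lemma two_eq (n : ℕ) : (((2 ^ n : ℕ)) : ℝ) = two n := by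
  unfold two
  push_cast
  rfl

lemma isProduct_two {S R X k : ℕ} {T : ℝ} (hT : T ≤ two k) (h : IsProduct S R T X) :
    AllDegreesCount.IsProduct S (2 ^ k) R X := by
  obtain ⟨l, h1, h2, h3, h4⟩ := h
  refine ⟨l, h1, h2, fun a ha => ⟨(h3 a ha).1, ?_⟩, h4⟩
  have h5 : ((a : ℕ) : ℝ) ≤ ((2 ^ k : ℕ) : ℝ) := by
    rw [two_eq]
    exact (h3 a ha).2.trans hT
  exact_mod_cast h5

lemma part1 (S Q A B C : ℕ) (hA : 0 < A) (hB : 0 < B) (hC : 0 < C) (ε : ℝ) (hε : 0 < ε) : ∃ R : ℕ, ∀ η : ℝ, 0 < η →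
    ∃ E : Set ℝ, dimH E ≤ ENNReal.ofReal (ε / η) ∧ ∀ x : ℝ, x ∉ E → ∃ T₀ : ℝ, ∀ T : ℝ, T₀ ≤ T →
      Far S Q R A B C T η x := by
  obtain ⟨R, C₀, hC₀, hres⟩ := AllDegreesCount.result S Q A B C hA hB hC ε hε
  refine ⟨R, fun η hη => ?_⟩
  obtain ⟨E, hE1, hE2⟩ := near_family_eps (X := ℝ) (ι := Unit) (T := fun _ => ℚ)
    (fun _ t => (t : ℝ)) 0 hε hη
    (fun _ k _ => AllDegreesCount.Ratios S Q (2 ^ k) R A B C) (fun _ => ⟨C₀, fun k _ => by
      obtain ⟨⟨h1, h2⟩, -⟩ := hres (2 ^ k) Nat.one_le_two_pow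
      refine ⟨h1, h2.trans (le_of_eq ?_)⟩
      rw [two_eq]⟩)
  rw [Nat.cast_zero, mul_zero, zero_add, one_mul] at hE1
  refine ⟨E, hE1, fun x hx => ?_⟩
  obtain ⟨k₀, hk₀⟩ := hE2 x hx ()
  refine ⟨max 1 (two k₀), fun T hT X Y Z h1 h2 h3 h4 h5 => ?_⟩
  have hT1 : 1 ≤ T := le_trans (le_max_left _ _) hT
  obtain ⟨k, hk1, hk2⟩ := exists_two T hT1
  have hkk : k₀ ≤ k := le_of_two_le (le_trans (le_max_right _ _) hT) hk1
  refine lt_of_le_of_lt (rpow_le_two' k hT1 hη.le hk2) ?_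
  have h6 := hk₀ k hkk (fun i => i.elim0) (fun i => i.elim0) (((A * X : ℕ) : ℚ) / ((C * Z : ℕ) : ℚ))
    ⟨(X, Y, Z), ⟨h1, h2, isProduct_two hk1 h3, isProduct_two hk1 h4, isProduct_two hk1 h5⟩, rfl⟩
  rw [Real.dist_eq] at h6
  push_cast at h6
  exact h6

/-- **Theorem.** (1) Let `A`, `B`, `C` be positive and `S`, `Q` be given. For every `ε > 0` there is `R` such that for
every `η > 0` there is a set `E` of real numbers of Hausdorff dimension at most `ε / η` such that for every `x ∉ E`: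
`Far S Q R A B C T η x` for all large `T`. (2) There is a set `E` of real numbers of Hausdorff dimension zero such that for
every `x ∉ E`, all `S`, `Q`, all positive `A`, `B`, `C` and all `η > 0` there is `R` such that `Far S Q R A B C T η x` for
all large `T`. -/
theorem result :
    (∀ S Q A B C : ℕ, 0 < A → 0 < B → 0 < C → ∀ ε : ℝ, 0 < ε → ∃ R : ℕ, ∀ η : ℝ, 0 < η →
      ∃ E : Set ℝ, dimH E ≤ ENNReal.ofReal (ε / η) ∧ ∀ x : ℝ, x ∉ E → ∃ T₀ : ℝ, ∀ T : ℝ, T₀ ≤ T →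
        Far S Q R A B C T η x) ∧
    (∃ E : Set ℝ, dimH E = 0 ∧ ∀ x : ℝ, x ∉ E → ∀ S Q A B C : ℕ, 0 < A → 0 < B → 0 < C → ∀ η : ℝ, 0 < η →
      ∃ (R : ℕ) (T₀ : ℝ), ∀ T : ℝ, T₀ ≤ T → Far S Q R A B C T η x) := by
  refine ⟨part1, ?_⟩
  have hone : ∀ i : ℕ × ℕ × ℕ × ℕ × ℕ, ∃ E : Set ℝ, dimH E = 0 ∧ ∀ x : ℝ, x ∉ E → 0 < i.2.2.1 → 0 < i.2.2.2.1 →
      0 < i.2.2.2.2 → ∀ η : ℝ, 0 < η → ∃ (R : ℕ) (T₀ : ℝ), ∀ T : ℝ, T₀ ≤ T →
        Far i.1 i.2.1 R i.2.2.1 i.2.2.2.1 i.2.2.2.2 T η x := by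
    rintro ⟨S, Q, A, B, C⟩
    by_cases h : 0 < A ∧ 0 < B ∧ 0 < C
    · choose R hR using fun m : ℕ => part1 S Q A B C h.1 h.2.1 h.2.2 (1 / ((m : ℝ) + 1)) (by positivity)
      obtain ⟨E, hE1, hE2⟩ := zero_of_eps
        (fun m η (x : ℝ) => ∃ T₀ : ℝ, ∀ T : ℝ, T₀ ≤ T → Far S Q (R m) A B C T η x)
        (fun m η η' x _ hηη ⟨T₀, hT₀⟩ => ⟨max 1 T₀, fun T hT X Y Z h1 h2 h3 h4 h5 =>
          lt_of_le_of_lt (Real.rpow_le_rpow_of_exponent_le ((le_max_left _ _).trans hT) (by linarith))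
            (hT₀ T ((le_max_right _ _).trans hT) X Y Z h1 h2 h3 h4 h5)⟩) hR
      refine ⟨E, hE1, fun x hx _ _ _ η hη => ?_⟩
      obtain ⟨m, hm⟩ := hE2 x hx η hη
      exact ⟨R m, hm⟩
    · exact ⟨∅, by simp, fun x _ h1 h2 h3 => absurd ⟨h1, h2, h3⟩ h⟩
  choose E hE1 hE2 using hone
  refine ⟨⋃ i, E i, by rw [dimH_iUnion]; simp [hE1], fun x hx S Q A B C hA hB hC η hη => ?_⟩
  exact hE2 ⟨S, Q, A, B, C⟩ x (fun h => hx (Set.mem_iUnion.2 ⟨_, h⟩)) hA hB hC η hη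

end Pool.Agent.Results.MP_4ffbf9_nt.RatiosNearReals
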