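import Pool.Agent.Results.MP_4ffbf9_nt.FactorWindows
import Pool.Agent.X16.NW.E

/-!
# No largest factors of solutions of `A X + B Y = C Z` in products of small spread near real powers

There is a set `E` of Hausdorff dimension `0` (for a given sequence `κ` with `κ_n / log n → ∞`) such that for every `t > 1`
outside `E`, every `θ < 1` and all `S`, `Q`, `P` there are `R` and `δ > 0` such that for all large `n` there is no solution
of `A X + B Y = C Z` with `gcd (X, Y) ≤ Q rad (gcd (X, Y))`, coefficients `≤ exp (M ^ δ)` without prime factors larger than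
`P` and `X`, `Y`, `Z` products of spread at most `S` of degrees between `R` and `M ^ δ`, whose largest factor `M` satisfies
`|M - t ^ κ_n| ≤ t ^ (θ κ_n)`. For almost all `t > 1` and all `θ < 1 - 1 / t` the same holds with `n ^ t` in place of
`t ^ κ_n`. The general theorem is about families `f_n (t)` whose logarithmic slopes are bounded below.
-/

set_option autoImplicit false

open MeasureTheory Filter Topology

namespace Pool.Agent.Results.MP_4ffbf9_nt.RealPowers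

open FactorWindows (Solved)

/-- the exponent of convergence of the sequence `w` is at most `τ` -/
def ExpLe (w : ℕ → ℝ) (τ : ℝ) : Prop := ∀ p : ℝ, τ < p → Summable (fun n : ℕ => (w n) ^ (-p))

/-- for all large `n` one has `1 ≤ w_n ≤ f_n(t)` on `J`, where `w` has exponent of convergence at most `τ`, and the
logarithmic slopes of `f_n` on `J` are at least some `c > 0` -/
def Expanding (f : ℕ → ℝ → ℝ) (J : Set ℝ) (τ : ℝ) : Prop :=
  ∃ (w : ℕ → ℝ) (c : ℝ) (n₁ : ℕ), 0 < c ∧ ExpLe w τ ∧ ∀ n, n₁ ≤ n → 1 ≤ w n ∧ ∀ t ∈ J, w n ≤ f n t ∧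
    ∀ u ∈ J, t ≤ u → c * f n t * (u - t) ≤ f n u - f n t

/-- `I` is covered by countably many sets on which the family `f` is expanding -/
def LocExpanding (f : ℕ → ℝ → ℝ) (I : Set ℝ) (τ : ℝ) : Prop :=
  ∃ J : ℕ → Set ℝ, I ⊆ ⋃ A, J A ∧ ∀ A, Expanding f (J A) τ

/-- no solution (with the parameters `S`, `Q`, `P`, `R`, `δ`) has its largest factor within `Y ^ θ` of `Y` -/
def Free (S Q P R : ℕ) (δ θ Y : ℝ) : Prop := ∀ M : ℕ, Solved S Q P R δ M → Y ^ θ < |(M : ℝ) - Y|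

lemma one_family (S Q P : ℕ) {f : ℕ → ℝ → ℝ} {I : Set ℝ} {τ θ : ℝ} (hτ : 0 ≤ τ) (hθ0 : 0 ≤ θ) (hθ1 : θ < 1)
    (hf : LocExpanding f I τ) :
    ∃ E : Set ℝ, dimH E ≤ ENNReal.ofReal (τ / (1 - θ)) ∧ ∀ t ∈ I, t ∉ E →
      ∃ (R : ℕ) (δ : ℝ), 0 < δ ∧ ∃ k₀ : ℕ, ∀ k : ℕ, k₀ ≤ k → Free S Q P R δ θ (f k t) := by
  classical
  have hall : ∀ j : ℕ, ∃ (R : ℕ) (δ : ℝ) (E : Set ℝ), 0 < δ ∧
      dimH E ≤ ENNReal.ofReal ((1 / ((j : ℝ) + 1) + τ) / (1 - θ)) ∧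
      ∀ t ∈ I, t ∉ E → ∃ k₀ : ℕ, ∀ k : ℕ, k₀ ≤ k → ∀ M ∈ {M : ℕ | Solved S Q P R δ M ∧ 0 < M},
        (f k t) ^ θ < |(M : ℝ) - f k t| := by
    intro j
    obtain ⟨R, δ, hδ, C, hC, h⟩ := FactorWindows.count S Q P (1 / ((j : ℝ) + 1)) (by positivity)
    obtain ⟨E, h3, h4⟩ := Pool.Agent.X16.NW.windows_loc {M : ℕ | Solved S Q P R δ M ∧ 0 < M}
      (fun M : ℕ => (M : ℝ)) (s := 1 / ((j : ℝ) + 1)) hτ (by positivity) hθ0 hθ1
      (fun ε hε => Pool.Agent.X16.NW.count_nat {M : ℕ | Solved S Q P R δ M ∧ 0 < M} (by positivity)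
        (fun ε hε => by
          refine ⟨C, fun X hX => ?_⟩
          have hX1 : (1 : ℝ) ≤ X := by exact_mod_cast hX
          have e : {t : ℕ | t ∈ {M : ℕ | Solved S Q P R δ M ∧ 0 < M} ∧ t ≤ X} =
              (((Finset.Ioc 0 X).filter (fun M => Solved S Q P R δ M) : Finset ℕ) : Set ℕ) := by
            ext m
            simp only [Set.mem_setOf_eq, Finset.coe_filter, Finset.mem_Ioc]
            tauto
          rw [e, Set.ncard_coe_finset]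
          refine (h X hX).trans ?_
          apply mul_le_mul_of_nonneg_left _ hC
          apply Real.rpow_le_rpow_of_exponent_le hX1
          linarith) ε hε) I f hf
    exact ⟨R, δ, E, hδ, h3, h4⟩
  choose R δ G hδ hG1 hG2 using hall
  have hlim : Tendsto (fun m : ℕ => ENNReal.ofReal ((1 / ((m : ℝ) + 1) + τ) / (1 - θ))) atTop
      (𝓝 (ENNReal.ofReal ((0 + τ) / (1 - θ)))) :=
    ENNReal.tendsto_ofReal ((tendsto_one_div_add_atTop_nhds_zero_nat.add_const τ).div_const (1 - θ))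
  rw [zero_add] at hlim
  refine ⟨⋂ m, G m, ge_of_tendsto' hlim fun m => (dimH_mono (Set.iInter_subset _ m)).trans (hG1 m),
    fun t ht htE => ?_⟩
  rw [Set.mem_iInter] at htE
  push Not at htE
  obtain ⟨j, hj⟩ := htE
  obtain ⟨k₀, hk⟩ := hG2 j t ht hj
  refine ⟨R j, δ j, hδ j, k₀, fun k hk1 M hM => ?_⟩
  have hM0 : 0 < M := by
    obtain ⟨A, B, C, l₁, l₂, l₃, -, -, -, -, -, h3, h4, h5, h6⟩ := hM
    rcases h6 with h6 | h6 | h6
    · exact (h3.2.2.1 M h6).1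
    · exact (h4.2.2.1 M h6).1
    · exact (h5.2.2.1 M h6).1
  exact hk k hk1 M ⟨hM, hM0⟩

lemma all_families {f : ℕ → ℝ → ℝ} {I : Set ℝ} {τ θ : ℝ} (hτ : 0 ≤ τ) (hθ0 : 0 ≤ θ) (hθ1 : θ < 1)
    (hf : LocExpanding f I τ) :
    ∃ E : Set ℝ, dimH E ≤ ENNReal.ofReal (τ / (1 - θ)) ∧ ∀ t ∈ I, t ∉ E → ∀ S Q P : ℕ,
      ∃ (R : ℕ) (δ : ℝ), 0 < δ ∧ ∃ k₀ : ℕ, ∀ k : ℕ, k₀ ≤ k → Free S Q P R δ θ (f k t) := by
  have hall : ∀ c : ℕ × ℕ × ℕ, _ := fun c => one_family c.1 c.2.1 c.2.2 hτ hθ0 hθ1 hf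
  choose E hE1 hE2 using hall
  refine ⟨⋃ c, E c, ?_, fun t ht htE S Q P => ?_⟩
  · rw [dimH_iUnion]
    exact iSup_le hE1
  · rw [Set.mem_iUnion] at htE
    push Not at htE
    exact hE2 (S, Q, P) t ht (htE (S, Q, P))

lemma Free.mono {S Q P R : ℕ} {δ θ θ' Y : ℝ} (h : Free S Q P R δ θ' Y) (hY : 1 ≤ Y) (hθ : θ ≤ θ') :
    Free S Q P R δ θ Y := fun M hM => (Real.rpow_le_rpow_of_exponent_le hY hθ).trans_lt (h M hM)

/-- **Theorem.** (1) For every family `f` locally expanding on `I` with exponent of convergence at most `τ ≥ 0` and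
`0 ≤ θ < 1` there is a set `E` of Hausdorff dimension at most `τ / (1 - θ)` such that for each `t` in `I` outside `E` and all
`S`, `Q`, `P` there are `R` and `δ > 0` such that for all large `n` no solution has its largest factor within `f_n(t) ^ θ` of
`f_n(t)`. (2) `t ^ κ_n` is such a family on `t > 1` with `τ = 0` if `κ_n / log n → ∞`, and `n ^ t` on `t ≥ a` with
`τ = 1 / a`. (3) If `κ_n / log n → ∞` there is `E` of Hausdorff dimension `0` such that this holds for every `t > 1` outside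
`E`, every `θ < 1` and all `S`, `Q`, `P` along `t ^ κ_n`. (4) For almost all `t > 1`, every `θ < 1 - 1 / t` and all `S`, `Q`,
`P` it holds along `n ^ t`. -/
theorem result :
    (∀ (f : ℕ → ℝ → ℝ) (I : Set ℝ) (τ θ : ℝ), 0 ≤ τ → 0 ≤ θ → θ < 1 → LocExpanding f I τ →
      ∃ E : Set ℝ, dimH E ≤ ENNReal.ofReal (τ / (1 - θ)) ∧ ∀ t ∈ I, t ∉ E → ∀ S Q P : ℕ,
        ∃ (R : ℕ) (δ : ℝ), 0 < δ ∧ ∃ n₀ : ℕ, ∀ n : ℕ, n₀ ≤ n → Free S Q P R δ θ (f n t)) ∧
    (∀ κ : ℕ → ℝ, Tendsto (fun n : ℕ => κ n / Real.log n) atTop atTop →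
      LocExpanding (fun n t => t ^ κ n) (Set.Ioi 1) 0) ∧
    (∀ a : ℝ, 0 < a → LocExpanding (fun n t => (n : ℝ) ^ t) (Set.Ici a) (1 / a)) ∧
    (∀ κ : ℕ → ℝ, Tendsto (fun n : ℕ => κ n / Real.log n) atTop atTop →
      ∃ E : Set ℝ, dimH E = 0 ∧ ∀ t : ℝ, 1 < t → t ∉ E → ∀ θ : ℝ, θ < 1 → ∀ S Q P : ℕ,
        ∃ (R : ℕ) (δ : ℝ), 0 < δ ∧ ∃ n₀ : ℕ, ∀ n : ℕ, n₀ ≤ n → Free S Q P R δ θ (t ^ κ n)) ∧
    (∀ᵐ t : ℝ, 1 < t → ∀ θ : ℝ, θ < 1 - 1 / t → ∀ S Q P : ℕ,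
      ∃ (R : ℕ) (δ : ℝ), 0 < δ ∧ ∃ n₀ : ℕ, ∀ n : ℕ, n₀ ≤ n → Free S Q P R δ θ ((n : ℝ) ^ t)) := by
  refine ⟨fun f I τ θ hτ hθ0 hθ1 hf => all_families hτ hθ0 hθ1 hf, fun κ hκ => Pool.Agent.X16.NW.loc_rpow κ hκ,
    fun a ha => Pool.Agent.X16.NW.loc_npow a ha, fun κ hκ => ?_, ?_⟩
  · have hloc : LocExpanding (fun n t => t ^ κ n) (Set.Ioi 1) 0 := Pool.Agent.X16.NW.loc_rpow κ hκ
    have hall : ∀ j : ℕ, ∃ E : Set ℝ, dimH E = 0 ∧ ∀ t : ℝ, 1 < t → t ∉ E → ∀ S Q P : ℕ,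
        ∃ (R : ℕ) (δ : ℝ), 0 < δ ∧ ∃ n₀ : ℕ, ∀ n : ℕ, n₀ ≤ n →
          Free S Q P R δ (1 - 1 / ((j : ℝ) + 1)) (t ^ κ n) := by
      intro j
      have hj : (0 : ℝ) < 1 / ((j : ℝ) + 1) := by positivity
      have hj1 : 1 / ((j : ℝ) + 1) ≤ 1 := by
        rw [div_le_one (by positivity)]
        have : (0 : ℝ) ≤ j := Nat.cast_nonneg j
        linarith
      obtain ⟨E, hE1, hE2⟩ := all_families (τ := 0) (θ := 1 - 1 / ((j : ℝ) + 1)) le_rfl (by linarith)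
        (by linarith) hloc
      refine ⟨E, ?_, fun t ht htE => hE2 t ht htE⟩
      rw [zero_div, ENNReal.ofReal_zero] at hE1
      exact le_antisymm hE1 (by simp)
    choose E hE1 hE2 using hall
    refine ⟨⋃ j, E j, ?_, fun t ht htE θ hθ S Q P => ?_⟩
    · rw [dimH_iUnion]
      simp [hE1]
    · rw [Set.mem_iUnion] at htE
      push Not at htE
      obtain ⟨j, hj⟩ := exists_nat_one_div_lt (sub_pos.2 hθ)
      obtain ⟨R, δ, hδ, n₀, hn⟩ := hE2 j t ht (htE j) S Q P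
      have hκ0 : ∀ᶠ n : ℕ in atTop, 0 ≤ κ n := by
        filter_upwards [hκ.eventually_ge_atTop 0, eventually_ge_atTop 3] with n hn hn3
        have h3 : (3 : ℝ) ≤ n := by exact_mod_cast hn3
        have hln : 0 < Real.log n := Real.log_pos (by linarith)
        rw [le_div_iff₀ hln, zero_mul] at hn
        exact hn
      obtain ⟨n₁, hn₁⟩ := eventually_atTop.1 hκ0
      exact ⟨R, δ, hδ, max n₀ n₁, fun n hn2 => (hn n ((le_max_left _ _).trans hn2)).mono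
        (Real.one_le_rpow ht.le (hn₁ n ((le_max_right _ _).trans hn2))) (by linarith)⟩
  · have hall : ∀ q : ℚ × ℚ, ∀ᵐ t : ℝ, 0 ≤ (q.1 : ℝ) → (q.1 : ℝ) < 1 → 0 < (q.2 : ℝ) →
        1 / (q.2 : ℝ) < 1 - (q.1 : ℝ) → (q.2 : ℝ) ≤ t → ∀ S Q P : ℕ,
        ∃ (R : ℕ) (δ : ℝ), 0 < δ ∧ ∃ n₀ : ℕ, ∀ n : ℕ, n₀ ≤ n → Free S Q P R δ (q.1 : ℝ) ((n : ℝ) ^ t) := by
      rintro ⟨θ, a⟩
      simp only
      by_cases h : 0 ≤ (θ : ℝ) ∧ (θ : ℝ) < 1 ∧ 0 < (a : ℝ) ∧ 1 / (a : ℝ) < 1 - (θ : ℝ)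
      · obtain ⟨h1, h2, h3, h4⟩ := h
        obtain ⟨E, hE1, hE2⟩ := all_families (one_div_pos.2 h3).le h1 h2 (Pool.Agent.X16.NW.loc_npow (a : ℝ) h3)
        have hE0 : volume E = 0 := by
          refine Pool.Agent.X16.NW.null_of_dim ?_ hE1
          rw [div_lt_one (by linarith)]
          exact h4
        have h5 : ∀ᵐ t : ℝ, t ∉ E := by
          rw [ae_iff]
          simpa using hE0
        filter_upwards [h5] with t ht _ _ _ _ hta
        exact hE2 t hta ht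
      · refine Filter.Eventually.of_forall fun t h1 h2 h3 h4 => ?_
        exact absurd ⟨h1, h2, h3, h4⟩ h
    filter_upwards [ae_all_iff.2 hall] with t ht ht1 θ hθ S Q P
    have ht0 : 0 < t := by linarith
    have h1t : 1 / t < 1 := by rwa [div_lt_one ht0]
    obtain ⟨θ', hθ1, hθ2⟩ := exists_rat_btwn (show max θ 0 < 1 - 1 / t from max_lt hθ (by linarith))
    have h10 : 0 ≤ (θ' : ℝ) := (le_max_right _ _).trans hθ1.le
    have h11 : θ ≤ θ' := (le_max_left _ _).trans hθ1.le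
    have hd : 0 < 1 - (θ' : ℝ) := by
      have : 0 < 1 / t := by positivity
      linarith
    have h12 : 1 / (1 - (θ' : ℝ)) < t := by
      rw [div_lt_iff₀ hd]
      have h13 : 1 / t < 1 - θ' := by linarith
      rw [div_lt_iff₀ ht0] at h13
      linarith
    obtain ⟨a, ha1, ha2⟩ := exists_rat_btwn h12
    have ha0 : 0 < (a : ℝ) := (by positivity : (0 : ℝ) < 1 / (1 - θ')).trans ha1
    have h14 : 1 / (a : ℝ) < 1 - θ' := by
      rw [div_lt_iff₀ hd] at ha1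
      rw [div_lt_iff₀ ha0]
      linarith
    obtain ⟨R, δ, hδ, n₀, hn⟩ := ht (θ', a) h10 (by simpa using (show (θ' : ℝ) < 1 by linarith)) ha0 h14 ha2.le S Q P
    refine ⟨R, δ, hδ, max n₀ 1, fun n hn2 => (hn n ((le_max_left _ _).trans hn2)).mono ?_ h11⟩
    have : (1 : ℝ) ≤ n := by exact_mod_cast (le_max_right n₀ 1).trans hn2
    exact Real.one_le_rpow this ht0.le

end Pool.Agent.Results.MP_4ffbf9_nt.RealPowers
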