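import Mathlib
import Pool.Agent.X5.SD.Spread

/-!
# `A X + B Y = C Z` in products of small spread whose bases have small digits in a common base

Let `X`, `Y`, `Z` be products of degrees at most `n` whose bases `b` have representations
`b = ∑ d_i N ^ i` (any number of terms, `d_i` integers of any sign) in one and the same base `N`,
such that the sum of all `|d_i|` plus the spread is at most `H`. If `2 (A + B + C) H ^ n < N` and
`Q + H < N`, then `A X + B Y = C Z` and `gcd (X, Y) ≤ Q rad (gcd (X, Y))` imply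
`∑ (s + 1) / n > 1` (unless all bases are at most `H`): there are no solutions with `F ≤ 1`.

Method: the equation lifts to an identity between integer polynomials (the factors of `X` become
`g(T) + u` with `g(N) = b_X` and `0 ≤ u ≤ s_X`), to which the argument of Mason and Stothers with the
Wronskian is applied, without coprimality: a double common factor of the polynomials would be a
polynomial whose value at `N` is at least `N - H`, and whose square divides `gcd (X, Y)`.
-/

set_option autoImplicit false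

namespace Pool.Agent.Results.MP_4ffbf9_nt.SmallDigitBases

open Polynomial Finset

/-- `X` has a product representation `x_0 ... x_(n-1)` of degree `n ≥ 1`, base `b` (the least factor)
and spread `s` (largest minus least factor), with positive factors. -/
def IsProduct (X n b s : ℕ) : Prop :=
  0 < n ∧ ∃ x : Fin n → ℕ, X = ∏ i, x i ∧ (∀ i, 0 < x i) ∧ (∀ i, b ≤ x i ∧ x i ≤ b + s) ∧
    (∃ i, x i = b) ∧ ∃ i, x i = b + s

/-- `b` is a combination of powers of `N` with integral coefficients `d i` (digits), and the sum of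
their absolute values and of `s` is at most `H`. -/
def SmallDigits (N H b s : ℕ) : Prop :=
  ∃ (m : ℕ) (d : ℕ → ℤ), (b : ℤ) = ∑ i ∈ range m, d i * (N : ℤ) ^ i ∧
    ∑ i ∈ range m, |d i| + s ≤ H

theorem rep {X n b s N H M : ℕ} (h : IsProduct X n b s) (hd : SmallDigits N H b s) (hn : n ≤ M) :
    ∃ (l : List ℕ) (g G : ℤ[X]), Pool.Agent.X5.SD.Rep N H M l b s g G ∧ l.length = n ∧
      l.prod = X := by
  obtain ⟨hn0, x, hX, hpos, hbd, -, -⟩ := h
  obtain ⟨m, d, hb, hsum⟩ := hd
  refine ⟨List.ofFn x, ∑ i ∈ range m, C (d i) * Polynomial.X ^ i,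
    ∑ i ∈ range m, C |d i| * Polynomial.X ^ i, ⟨?_, ?_, ?_, ?_, ?_, ?_, ?_⟩, ?_, ?_⟩
  · intro y hy
    obtain ⟨i, rfl⟩ := (List.mem_ofFn' _ _).1 hy
    exact hpos i
  · intro y hy
    obtain ⟨i, rfl⟩ := (List.mem_ofFn' _ _).1 hy
    exact hbd i
  · rw [eval_finsetSum, hb]
    exact sum_congr rfl fun i _ => by rw [eval_mul, eval_C, eval_pow, eval_X]
  · exact Pool.Agent.X5.SD.Dm.sum _ fun i _ => Pool.Agent.X5.SD.Dm.monomial _ _
  · rw [eval_finsetSum]
    simp only [eval_mul, eval_C, eval_pow, eval_X, one_pow, mul_one]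
    exact hsum
  · rw [List.length_ofFn]
    exact hn
  · intro h0
    have := congrArg List.length h0
    rw [List.length_ofFn] at this
    simp at this
    omega
  · rw [List.length_ofFn]
  · rw [List.prod_ofFn, hX]

theorem result (A B C N H n Q : ℕ) (hA : 0 < A) (hB : 0 < B) (hC : 0 < C)
    (hN : 2 * (A + B + C) * H ^ n < N) (hQ : Q + H < N)
    (X Y Z nX nY nZ bX bY bZ sX sY sZ : ℕ)
    (hX : IsProduct X nX bX sX) (hY : IsProduct Y nY bY sY) (hZ : IsProduct Z nZ bZ sZ)
    (hn : nX ≤ n ∧ nY ≤ n ∧ nZ ≤ n)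
    (dX : SmallDigits N H bX sX) (dY : SmallDigits N H bY sY) (dZ : SmallDigits N H bZ sZ)
    (hbig : H < max bX (max bY bZ)) (heq : A * X + B * Y = C * Z)
    (hgcd : Nat.gcd X Y ≤ Q * ∏ p ∈ (Nat.gcd X Y).primeFactors, p) :
    (1 : ℝ) < (sX + 1) / nX + (sY + 1) / nY + (sZ + 1) / nZ := by
  obtain ⟨lX, gX, GX, rX, eX, pX⟩ := rep hX dX hn.1
  obtain ⟨lY, gY, GY, rY, eY, pY⟩ := rep hY dY hn.2.1
  obtain ⟨lZ, gZ, GZ, rZ, eZ, pZ⟩ := rep hZ dZ hn.2.2
  rw [← eX, ← eY, ← eZ]
  refine Pool.Agent.X5.SD.main hA hB hC hN hQ rX rY rZ ?_ ?_ ?_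
  · rw [lt_max_iff, lt_max_iff] at hbig
    exact hbig
  · rw [pX, pY, pZ]
    exact heq
  · rw [pX, pY]
    exact hgcd

end Pool.Agent.Results.MP_4ffbf9_nt.SmallDigitBases
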